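import Pool.Agent.W946.LcFin

set_option autoImplicit false

/-!
# Linear circuits with many inputs and few outputs: the number of additions
-/

namespace Pool.Agent.Helper16K9.Hom

open Finset Pool.Agent.W946.Sz Pool.Agent.W946.Lc Pool.Agent.W946.Lc.Net

variable {F X Y : Type*} [Field F] [DecidableEq X] {A : Y → X → F}

/-- an input which occurs in an output has a user -/
theorem users_pos [Fintype X] {N : Net F X Y A} {x : X} {y : Y} (h : A y x ≠ 0) :
    1 ≤ (N.users (Sum.inl x)).card := by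
  by_contra h0
  have h1 : N.users (Sum.inl x) = ∅ := card_eq_zero.1 (by omega)
  have h2 : ∀ v ∈ N.U, N.row v (Sum.inl x) = 0 := by
    intro v hv
    by_contra h3
    have : v ∈ N.users (Sum.inl x) := mem_users.2 ⟨hv, Finsupp.mem_support_iff.2 h3⟩
    rw [h1] at this
    exact notMem_empty v this
  have h3 : ∀ v ∈ N.U, N.L v x = 0 := by
    intro v
    induction v using Nat.strong_induction_on with
    | _ v ih =>
    intro hv
    rw [L_apply hv, h2 v hv, zero_add]
    refine sum_eq_zero fun u hu => ?_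
    by_cases h4 : Sum.inr u ∈ (N.row v).support
    · rw [ih u (N.early v hv u h4).2 hu, mul_zero]
    · rw [Finsupp.notMem_support_iff.1 h4, zero_mul]
  obtain ⟨h4, c, hc, h5⟩ := N.hout y
  have h6 := h3 _ h4
  rw [h5, Pi.smul_apply, smul_eq_mul] at h6
  exact (mul_ne_zero hc h) h6

theorem adds_add {N : Net F X Y A} (h : ∀ v ∈ N.U, 1 ≤ N.k v) :
    N.edges = N.adds + N.U.card := by
  unfold Net.edges Net.adds
  rw [card_eq_sum_ones, ← sum_add_distrib]
  refine sum_congr rfl fun v hv => ?_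
  have := h v hv
  omega

variable [Fintype X] [Fintype Y]

/-- the additions of a circuit without redundant gates -/
theorem back_nice [Nonempty X] {N : Net F X Y A} (hN : N.Nice) {Δ i r : ℕ} {ε : ℝ} (hε : 0 < ε)
    (hi : 1 ≤ i) (hU : (N.adds : ℝ) ≤ (1 + ε) ^ i)
    (hA' : ∀ ψ : Y → F, ψ ≠ 0 → (1 + Δ) * ((2 + Δ) ^ r * (4 * i + 3)) ≤
      wt ψ + wt (∑ y, ψ y • A y))
    (hcol : ∀ x, ∃ y, A y x ≠ 0) :
    ∃ K S : ℝ, (2 : ℝ) ^ r * (3 * K - S - ε * N.adds) ≤ 3 * K ∧
      S + Fintype.card X ≤ N.adds + Fintype.card Y ∧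
      (Δ + 1) * Fintype.card Y ≤ (Δ + 1) * K + 2 * N.adds ∧ K ≤ Fintype.card Y := by
  classical
  set T := (2 + Δ) ^ r * (4 * i + 3) with hT
  have hT3 : 4 * i + 3 ≤ T := Nat.le_mul_of_pos_left _ (by positivity)
  have hD3 : 3 ≤ (1 + Δ) * T := by nlinarith
  have hinj : Function.Injective N.out := out_inj fun ψ hψ => hD3.trans (hA' ψ hψ)
  have hdb : Dist N.Hb (N.Eb Δ) N.Hd T := dist_back hinj hA' le_rfl
  have hk : ∀ v ∈ N.U, 2 ≤ N.k v := fun v hv => two_le_k hN hv
  have he : N.edges = N.adds + N.U.card := adds_add fun v hv => (by omega : 1 ≤ 2).trans (hk v hv)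
  have hUa : N.U.card ≤ N.adds := by
    unfold Net.adds
    rw [card_eq_sum_ones]
    refine sum_le_sum fun v hv => ?_
    have := hk v hv
    omega
  have hUar : (N.U.card : ℝ) ≤ N.adds := by exact_mod_cast hUa
  have hHdU : (N.Hd.card : ℝ) ≤ N.U.card := by
    exact_mod_cast card_le_card (sdiff_subset (s := N.U) (t := N.O))
  have hcU := card_U hinj
  have hcolb : ∀ e ∈ N.Eb Δ, (eqs N.Hb N.Hd e).card ≤ Δ + 1 := by
    intro e he
    have h1 : e ∈ N.U := (mem_filter.1 he).1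
    rw [card_eqs_b h1]
    have h2 := card_hid_le (N := N) e
    have h3 := (mem_filter.1 he).2
    split_ifs <;> omega
  refine ⟨(N.Eb Δ).card - N.Hd.card, ∑ v ∈ N.Hd, (((N.users (Sum.inr v)).card - 1 : ℕ) : ℝ),
    ?_, ?_, ?_, ?_⟩
  · have hEbU : N.Eb Δ ⊆ N.U := filter_subset _ _
    have h1 := rounds' hε hi r (N.Eb Δ) N.Hd hcolb ((hHdU.trans hUar).trans hU) (hdb.mono (by
      rw [hT]
      exact Nat.mul_le_mul_right _ (Nat.pow_le_pow_left (by omega) r)))
    refine le_trans (mul_le_mul_of_nonneg_left ?_ (by positivity)) h1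
    have h3 : ∑ v ∈ N.Hd, (phi N.Hb (N.Eb Δ) v : ℝ) ≤
        ∑ v ∈ N.Hd, (((N.users (Sum.inr v)).card - 1 : ℕ) : ℝ) := by
      refine sum_le_sum fun v hv => ?_
      have h4 := card_rowb_le (N := N) hEbU v
      have h5 := hN.two v (mem_Hd.1 hv).1 (mem_Hd.1 hv).2
      have h6 : phi N.Hb (N.Eb Δ) v ≤ (N.users (Sum.inr v)).card - 1 := by
        unfold phi
        omega
      exact_mod_cast h6
    have h7 : ε * N.Hd.card ≤ ε * N.adds := mul_le_mul_of_nonneg_left (hHdU.trans hUar) hε.le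
    linarith
  · have h1 : N.edges = ∑ x, (N.users (Sum.inl x)).card + ∑ u ∈ N.U, (N.users (Sum.inr u)).card := by
      rw [← sum_users, sum_sym]
    have h2 : ∑ u ∈ N.Hd, (N.users (Sum.inr u)).card ≤ ∑ u ∈ N.U, (N.users (Sum.inr u)).card :=
      sum_le_sum_of_subset sdiff_subset
    have h3 : ∑ v ∈ N.Hd, (N.users (Sum.inr v)).card =
        ∑ v ∈ N.Hd, ((N.users (Sum.inr v)).card - 1) + N.Hd.card := by
      rw [card_eq_sum_ones, ← sum_add_distrib]
      refine sum_congr rfl fun v hv => ?_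
      have := hN.two v (mem_Hd.1 hv).1 (mem_Hd.1 hv).2
      omega
    have h4 : Fintype.card X ≤ ∑ x, (N.users (Sum.inl x)).card := by
      rw [← card_univ, card_eq_sum_ones]
      refine sum_le_sum fun x _ => ?_
      obtain ⟨y, hy⟩ := hcol x
      exact users_pos hy
    have h5 : ∑ v ∈ N.Hd, ((N.users (Sum.inr v)).card - 1) + Fintype.card X ≤
        N.adds + Fintype.card Y := by omega
    exact_mod_cast h5
  · have h1 := N.card_Eb Δ
    have h2 : (Δ + 1) * N.U.card ≤ (Δ + 1) * (N.Eb Δ).card + 2 * N.adds := by omega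
    have h3 : ((Δ : ℝ) + 1) * N.U.card ≤ (Δ + 1) * (N.Eb Δ).card + 2 * N.adds := by
      exact_mod_cast h2
    have h4 : (N.U.card : ℝ) = Fintype.card Y + N.Hd.card := by exact_mod_cast hcU
    rw [h4] at h3
    linarith
  · have h1 : ((N.Eb Δ).card : ℝ) ≤ N.U.card := by
      exact_mod_cast card_le_card (filter_subset _ _)
    have h4 : (N.U.card : ℝ) = Fintype.card Y + N.Hd.card := by exact_mod_cast hcU
    rw [h4] at h1
    linarith

/-- **The number of additions of a linear circuit with many inputs.** -/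
theorem back [Nonempty X] (N : Net F X Y A) {Δ i r : ℕ} {ε : ℝ} (hε : 0 < ε)
    (hi : 1 ≤ i) (hU : (N.adds : ℝ) ≤ (1 + ε) ^ i)
    (hA' : ∀ ψ : Y → F, ψ ≠ 0 → (1 + Δ) * ((2 + Δ) ^ r * (4 * i + 3)) ≤
      wt ψ + wt (∑ y, ψ y • A y))
    (hrow : ∀ y x (c : F), A y ≠ c • (Pi.single x 1 : X → F))
    (hcol : ∀ x, ∃ y, A y x ≠ 0) :
    (2 : ℝ) ^ r * (3 * (Fintype.card Y - 2 * N.adds / (Δ + 1)) -
      (N.adds + Fintype.card Y - Fintype.card X) - ε * N.adds) ≤ 3 * Fintype.card Y := by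
  obtain ⟨N', hN', -, e2, -⟩ := Net.exists_nice hrow N.U.card N rfl
  have e2' : (N'.adds : ℝ) ≤ N.adds := by exact_mod_cast e2
  obtain ⟨K, S, h1, h2, h3, h4⟩ := back_nice hN' hε hi (e2'.trans hU) hA' hcol
  have hΔ : (0 : ℝ) < (Δ : ℝ) + 1 := by positivity
  have h5 : (Fintype.card Y : ℝ) - 2 * N.adds / (Δ + 1) ≤ K := by
    have : (Fintype.card Y : ℝ) - K ≤ 2 * N.adds / (Δ + 1) := by
      rw [le_div_iff₀ hΔ]
      nlinarith
    linarith
  have h6 : 3 * ((Fintype.card Y : ℝ) - 2 * N.adds / (Δ + 1)) -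
      (N.adds + Fintype.card Y - Fintype.card X) - ε * N.adds ≤ 3 * K - S - ε * N'.adds := by
    have := mul_le_mul_of_nonneg_left e2' hε.le
    linarith
  exact (mul_le_mul_of_nonneg_left h6 (by positivity)).trans (h1.trans (by linarith))

end Pool.Agent.Helper16K9.Hom
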