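import Pool.Agent.Helper16K9.Hom.Main

set_option autoImplicit false

/-!
# Homogeneous circuits for matrix multiplication: the bound
-/

namespace Pool.Agent.Helper16K9.Hom

open Finset Pool.Agent.H88R3.MM Pool.Agent.H522R2 Pool.Agent.H522R2.Circuit Pool.Agent.W946.Kos
open Pool.Agent.W946.Sz
open Pool.Agent.W946.Lc (Net wt wt_eq)

/-- the number of addition gates -/
noncomputable def addGates {F V : Type*} (C : Circuit F V) : ℕ :=
  Nat.card {k : Fin C.nodes // ∃ i j, C.gate k = Gate.add i j}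

theorem add_nonscalar_le {F V : Type*} [Field F] (C : Circuit F V) :
    addGates C + C.nonscalarCount ≤ C.size := by
  classical
  unfold addGates Circuit.nonscalarCount Circuit.size
  rw [Nat.card_eq_fintype_card, Nat.card_eq_fintype_card, Nat.card_eq_fintype_card,
    Fintype.card_subtype, Fintype.card_subtype, Fintype.card_subtype, ← card_union_of_disjoint]
  · refine card_le_card fun v hv => ?_
    rw [mem_union, mem_filter, mem_filter] at hv
    rw [mem_filter]
    refine ⟨mem_univ _, ?_⟩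
    rcases hv with h | h
    · exact Or.inl h.2
    · obtain ⟨i, j, h1, _⟩ := h.2
      exact Or.inr ⟨i, j, h1⟩
  · rw [Finset.disjoint_left]
    intro v h1 h2
    obtain ⟨i, j, hg⟩ := (mem_filter.1 h1).2
    exact not_nonscalar_add hg (mem_filter.1 h2).2

/-- the real quantities -/
theorem numbers {F : Type*} [Field F] {m : ℕ} (hm : 3 ≤ m) {C : Circuit F (Vars m)}
    (hH : Homog C) (hC : ∀ i j, ∃ k : Fin C.nodes, C.poly k = entry F m i j)
    {η : ℝ} (hη : 0 < η) {i Δ r : ℕ} (hΔ : 0 < Δ) (hi : 1 ≤ i)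
    (hs : (addGates C : ℝ) ≤ (1 + η) ^ i)
    (hT : 2 * ((1 + Δ) * ((2 + Δ) ^ r * (4 * i + 3))) ≤ m) :
    ∃ c a R : ℕ, c + a ≤ addGates C ∧ R ≤ C.nonscalarCount ∧
      (∀ q p : ℕ, q * (p + 1) ≤ m →
        m ^ 2 + (2 * p + 1) * m * q ≤ R + q * (p + 1) * (2 * p + 1).choose p) ∧
      (2 : ℝ) ^ r * (3 * (2 * (m : ℝ) ^ 2 - (3 * c + 2 * C.nonscalarCount) / (Δ + 1)) -
        (1 + η) * c) ≤ 3 * (2 * (m : ℝ) ^ 2) ∧
      (2 : ℝ) ^ r * (3 * ((m : ℝ) ^ 2 - 2 * a / (Δ + 1)) - (a + (m : ℝ) ^ 2 - R) - η * a) ≤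
        3 * (m : ℝ) ^ 2 := by
  classical
  choose out' hout' using hC
  set out : Fin m × Fin m → Fin C.nodes := fun y => out' y.1 y.2 with hout0
  have hout : ∀ y, C.poly (out y) = entry F m y.1 y.2 := fun y => hout' y.1 y.2
  have ho : ∀ y, Two C (out y) := fun y => two_out (by omega) (hout y)
  set N := net C (Used C out) out ho with hN
  have hadds := net_adds C (Used C out) out ho
  set AD : Finset (Fin C.nodes) := univ.filter fun v => ∃ i j, C.gate v = Gate.add i j with hAD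
  have hADc : addGates C = AD.card := by
    rw [addGates, Nat.card_eq_fintype_card, Fintype.card_subtype]
  have hsum : (CC C).card + N.adds ≤ addGates C := by
    refine (Nat.add_le_add_left hadds _).trans ?_
    rw [hADc, ← card_union_of_disjoint]
    · refine card_le_card fun v hv => ?_
      rw [mem_union, mem_AT] at hv
      rw [hAD, mem_filter]
      refine ⟨mem_univ _, ?_⟩
      rcases hv with h | h
      · exact (leader_add hH (mem_CC.1 h)).1
      · exact h.1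
    · rw [Finset.disjoint_left]
      intro v h1 h2
      exact ((mem_AT C).1 h2).2 (leader_add hH (mem_CC.1 h1)).2
  have hR : Fintype.card {g // Used C out g} ≤ C.nonscalarCount := by
    rw [nonscalarCount_eq, Fintype.card_subtype]
    refine card_le_card fun g hg => ?_
    rw [mem_filter] at hg ⊢
    obtain ⟨y, hy⟩ := hg.2
    exact ⟨mem_univ _, nonscalar_of_Lf _ _ hy⟩
  have hcomb : ∀ ψ : Fin m × Fin m → F, ∑ y, ψ y • Lx C (Used C out) (out y) =
      ∑ y, ψ y • (fun x : {g // Used C out g} => Lf C (out y) x.1) := by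
    intro ψ
    exact sum_congr rfl fun y _ => by rw [Lx_val]
  have hwt : ∀ ψ : Fin m × Fin m → F, ψ ≠ 0 →
      m ≤ 2 * wt (∑ y, ψ y • Lx C (Used C out) (out y)) := by
    intro ψ hψ
    rw [hcomb]
    exact dist_out hH out hout hψ
  have hA' : ∀ ψ : Fin m × Fin m → F, ψ ≠ 0 → (1 + Δ) * ((2 + Δ) ^ r * (4 * i + 3)) ≤
      wt ψ + wt (∑ y, ψ y • Lx C (Used C out) (out y)) := by
    intro ψ hψ
    have := hwt ψ hψ
    omega
  have hone : ∀ y : Fin m × Fin m, m ≤ 2 * wt (Lx C (Used C out) (out y)) := by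
    intro y
    have h1 := hwt (Pi.single y 1) (fun h => by simpa using congrFun h y)
    rw [Finset.sum_eq_single y] at h1
    · rwa [Pi.single_eq_same, one_smul] at h1
    · intro y' _ hne
      rw [Pi.single_eq_of_ne hne, zero_smul]
    · intro h'
      exact absurd (mem_univ _) h'
  have hrow : ∀ (y : Fin m × Fin m) (x : {g // Used C out g}) (c : F),
      Lx C (Used C out) (out y) ≠ c • (Pi.single x 1 : {g // Used C out g} → F) := by
    intro y x c h
    have h1 := hone y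
    rw [h] at h1
    have h2 : wt (c • (Pi.single x 1 : {g // Used C out g} → F)) ≤ 1 := by
      rw [wt_eq]
      refine (card_le_card (t := {x}) fun z hz => ?_).trans (card_singleton x).le
      rw [mem_filter] at hz
      rw [mem_singleton]
      by_contra hne
      apply hz.2
      rw [Pi.smul_apply, Pi.single_eq_of_ne hne, smul_zero]
    omega
  have hcol : ∀ x : {g // Used C out g}, ∃ y, Lx C (Used C out) (out y) x ≠ 0 := by
    intro x
    obtain ⟨y, hy⟩ := x.2
    refine ⟨y, ?_⟩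
    rw [Lx_val]
    exact hy
  have hne : Nonempty {g // Used C out g} := by
    by_contra hemp
    rw [not_nonempty_iff] at hemp
    have h1 := hone (⟨0, by omega⟩, ⟨0, by omega⟩)
    rw [wt_eq, card_eq_zero.2 (by rw [filter_eq_empty_iff]; intro x; exact isEmptyElim x)] at h1
    omega
  have hcC : ((CC C).card : ℝ) ≤ addGates C := by exact_mod_cast (by omega)
  have haC : (N.adds : ℝ) ≤ addGates C := by exact_mod_cast (by omega)
  have hfr := front (C := C) (by omega) (fun i j => ⟨out' i j, hout' i j⟩) hη (r := r) hΔ hi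
    (hcC.trans hs) (by
      have h1 : (1 + Δ) ^ r ≤ (2 + Δ) ^ r := Nat.pow_le_pow_left (by omega) r
      have h2 : (1 + Δ) ^ r * (4 * i + 3) ≤ (2 + Δ) ^ r * (4 * i + 3) :=
        Nat.mul_le_mul_right _ h1
      have h3 : Δ * ((1 + Δ) ^ r * (4 * i + 3)) ≤ (1 + Δ) * ((2 + Δ) ^ r * (4 * i + 3)) :=
        Nat.mul_le_mul (by omega) h2
      omega)
  have hbk := back N hη hi (haC.trans hs) hA' hrow hcol
  have hY : (Fintype.card (Fin m × Fin m) : ℝ) = (m : ℝ) ^ 2 := by
    rw [Fintype.card_prod, Fintype.card_fin]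
    push_cast
    ring
  rw [hY] at hbk
  exact ⟨(CC C).card, N.adds, Fintype.card {g // Used C out g}, hsum, hR,
    fun q p hqp => used_bound hH out hout q p hqp, hfr, hbk⟩

/-- from the rank bound to `(3 - o(1)) m ^ 2` -/
theorem three (ε : ℝ) (hε : 0 < ε) : ∃ m₀ : ℕ, ∀ m R : ℕ, m₀ ≤ m →
    (∀ q p : ℕ, q * (p + 1) ≤ m →
        m ^ 2 + (2 * p + 1) * m * q ≤ R + q * (p + 1) * (2 * p + 1).choose p) →
    (3 - ε) * (m : ℝ) ^ 2 ≤ R := by
  obtain ⟨p, hp⟩ := exists_nat_gt (2 / ε)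
  obtain ⟨m₀, hm₀⟩ := exists_nat_gt ((2 * (p : ℝ) + 4 ^ p) * (2 / ε))
  refine ⟨m₀, fun m R hm hR => ?_⟩
  have hdm := Nat.div_add_mod m (p + 1)
  have hmod := Nat.mod_lt m (show 0 < p + 1 by omega)
  set q := m / (p + 1) with hq
  have hqp : q * (p + 1) ≤ m := Nat.div_mul_le_self m (p + 1)
  have h1 := hR q p hqp
  have h2 : q * (p + 1) * (2 * p + 1).choose p ≤ m * 4 ^ p :=
    Nat.mul_le_mul hqp (Nat.choose_middle_le_pow p)
  have h3 : m ^ 2 + (2 * p + 1) * m * q ≤ R + m * 4 ^ p := by omega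
  have h4 : m ≤ q * (p + 1) + p := by
    have : (p + 1) * q = q * (p + 1) := mul_comm _ _
    omega
  have h5 : (m : ℝ) ^ 2 + (2 * p + 1) * m * q ≤ R + m * 4 ^ p := by
    exact_mod_cast h3
  have h6 : (m : ℝ) ≤ q * (p + 1) + p := by exact_mod_cast h4
  have hp' : (0 : ℝ) < (p : ℝ) + 1 := by positivity
  have hm0 : (0 : ℝ) ≤ m := by positivity
  have h7 : (2 - 1 / ((p : ℝ) + 1)) * (m : ℝ) ^ 2 ≤ (2 * p + 1) * m * q + 2 * p * m := by
    have e1 : (2 - 1 / ((p : ℝ) + 1)) * (m : ℝ) ^ 2 = ((2 * p + 1) * m ^ 2) / (p + 1) := by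
      field_simp
      ring
    rw [e1, div_le_iff₀ hp']
    have h8 : (2 * (p : ℝ) + 1) * m * m ≤ (2 * p + 1) * m * (q * (p + 1) + p) :=
      mul_le_mul_of_nonneg_left h6 (by positivity)
    have hp0 : (0 : ℝ) ≤ p := by positivity
    nlinarith [mul_nonneg hp0 hm0]
  have hm1 : (m₀ : ℝ) ≤ m := by exact_mod_cast hm
  have h8 : 1 / ((p : ℝ) + 1) ≤ ε / 2 := by
    rw [div_le_div_iff₀ (by positivity) (by norm_num)]
    rw [div_lt_iff₀ hε] at hp
    nlinarith
  have h9 : (2 * (p : ℝ) + 4 ^ p) ≤ (ε / 2) * m := by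
    have h10 : (2 * (p : ℝ) + 4 ^ p) * (2 / ε) ≤ m := (hm₀.le).trans hm1
    have h11 : (ε / 2) * ((2 * (p : ℝ) + 4 ^ p) * (2 / ε)) = (2 * (p : ℝ) + 4 ^ p) := by
      field_simp
    rw [← h11]
    exact mul_le_mul_of_nonneg_left h10 (by positivity)
  nlinarith [mul_nonneg hm0 hm0, mul_le_mul_of_nonneg_right h8 (mul_nonneg hm0 hm0),
    mul_le_mul_of_nonneg_right h9 hm0]

theorem final_num {M η c a R A n D P : ℝ} (hM : 0 < M) (hη : 0 < η) (hc : 0 ≤ c) (ha : 0 ≤ a)
    (hn : 0 ≤ n) (hA : 0 ≤ A) (hT : A + n < 14 * M) (e1 : c + a ≤ A) (e2 : R ≤ n) (hD0 : 0 < D)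
    (hD : 210 ≤ η * D) (hP0 : 0 < P) (hP : 6 ≤ η * P) (hR : (3 - η) * M ≤ R)
    (e4 : P * (3 * (2 * M - (3 * c + 2 * n) / D) - (1 + η) * c) ≤ 3 * (2 * M))
    (e5 : P * (3 * (M - 2 * a / D) - (a + M - R) - η * a) ≤ 3 * M) :
    14 * M - 40 * (η * M) ≤ A + n := by
  have hηM : 0 < η * M := mul_pos hη hM
  have hDM : 210 * M ≤ η * D * M := mul_le_mul_of_nonneg_right hD hM.le
  have g1 : (3 * c + 2 * n) / D ≤ η / 3 * M := by
    rw [div_le_iff₀ hD0]
    have : η / 3 * M * D = η * D * M / 3 := by ring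
    rw [this]
    linarith
  have g2 : 2 * a / D ≤ η / 3 * M := by
    rw [div_le_iff₀ hD0]
    have : η / 3 * M * D = η * D * M / 3 := by ring
    rw [this]
    linarith
  have key : ∀ Z B : ℝ, P * Z ≤ B → B ≤ 6 * M → Z ≤ η * M := by
    intro Z B h1 h2
    have h3 : P * Z ≤ P * (η * M) := by
      have h4 : 6 * M ≤ η * P * M := mul_le_mul_of_nonneg_right hP hM.le
      have h5 : P * (η * M) = η * P * M := by ring
      rw [h5]
      linarith
    exact le_of_mul_le_mul_left h3 hP0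
  have k1 := key _ _ e4 (by linarith)
  have k2 := key _ _ e5 (by linarith)
  have k3 : η * c ≤ 14 * (η * M) := by
    have h1 : c ≤ 14 * M := by linarith
    have h2 := mul_le_mul_of_nonneg_left h1 hη.le
    linarith
  have k4 : η * a ≤ 14 * (η * M) := by
    have h1 : a ≤ 14 * M := by linarith
    have h2 := mul_le_mul_of_nonneg_left h1 hη.le
    linarith
  have k5 : (1 + η) * c = c + η * c := by ring
  have k6 : (3 - η) * M = 3 * M - η * M := by ring
  have k7 : η / 3 * M = (η * M) / 3 := by ring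
  rw [k5] at k1
  rw [k6] at hR
  rw [k7] at g1 g2
  linarith

universe u

theorem homog_bound (δ : ℝ) (hδ : 0 < δ) : ∃ m₀ : ℕ, ∀ (F : Type u) [Field F] (m : ℕ)
    (C : Circuit F (Vars m)), m₀ ≤ m → Homog C →
    (∀ i j, ∃ k : Fin C.nodes, C.poly k = entry F m i j) →
    (14 - δ) * (m : ℝ) ^ 2 ≤ addGates C + C.nonscalarCount := by
  set η : ℝ := min (δ / 40) (1 / 2) with hηdef
  have hη : 0 < η := lt_min (by positivity) (by norm_num)
  have hη1 : 40 * η ≤ δ := by
    have := min_le_left (δ / 40) (1 / 2 : ℝ)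
    rw [← hηdef] at this
    linarith
  obtain ⟨Δ, hΔ⟩ := exists_nat_gt (210 / η)
  have hΔ0 : 0 < Δ := by
    have : (0 : ℝ) < Δ := lt_trans (by positivity) hΔ
    exact_mod_cast this
  obtain ⟨r, hr⟩ := pow_unbounded_of_one_lt (6 / η) (show (1 : ℝ) < 2 by norm_num)
  obtain ⟨m₁, hm₁⟩ := pick (K := 4 * ((1 + Δ) * (2 + Δ) ^ r)) (by positivity) hη
  obtain ⟨m₂, hm₂⟩ := three η hη
  refine ⟨max (max m₁ m₂) 3, fun F _ m C hm hH hC => ?_⟩
  have hm1 : m₁ ≤ m := (le_max_left _ _).trans ((le_max_left _ _).trans hm)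
  have hm2 : m₂ ≤ m := (le_max_right _ _).trans ((le_max_left _ _).trans hm)
  have hm3 : 3 ≤ m := (le_max_right _ _).trans hm
  obtain ⟨i, hi, hT, hp⟩ := hm₁ m hm1
  by_contra hcon
  push Not at hcon
  set M : ℝ := (m : ℝ) ^ 2 with hM
  have hM1 : 9 ≤ M := by
    have h3 : (3 : ℝ) ≤ m := by exact_mod_cast hm3
    have h4 : (3 : ℝ) ^ 2 ≤ (m : ℝ) ^ 2 := pow_le_pow_left₀ (by norm_num) h3 2
    linarith
  have hns0 : (0 : ℝ) ≤ C.nonscalarCount := by positivity
  have had0 : (0 : ℝ) ≤ addGates C := by positivity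
  have hδM : 0 ≤ δ * M := by positivity
  have hT14 : (addGates C : ℝ) + C.nonscalarCount < 14 * M := by linarith
  have hpow : (addGates C : ℝ) ≤ (1 + η) ^ (2 * i) := by
    have h1 : (1 + η) ^ (2 * i) = ((1 + η) ^ i) ^ 2 := by rw [mul_comm, pow_mul]
    have h2 : (8 * M) ^ 2 ≤ ((1 + η) ^ i) ^ 2 := pow_le_pow_left₀ (by positivity) hp 2
    rw [h1]
    refine le_trans ?_ h2
    have h3 : 9 * M ≤ M * M := mul_le_mul_of_nonneg_right hM1 (by linarith)
    have h4 : (8 * M) ^ 2 = 64 * (M * M) := by ring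
    rw [h4]
    linarith
  have hT2 : 2 * ((1 + Δ) * ((2 + Δ) ^ r * (4 * (2 * i) + 3))) ≤ m := by
    refine le_trans ?_ hT
    have h1 : 2 * ((1 + Δ) * ((2 + Δ) ^ r * (4 * (2 * i) + 3))) =
        ((1 + Δ) * (2 + Δ) ^ r) * (2 * (4 * (2 * i) + 3)) := by ring
    have h2 : 4 * ((1 + Δ) * (2 + Δ) ^ r) * (4 * i + 3) =
        ((1 + Δ) * (2 + Δ) ^ r) * (4 * (4 * i + 3)) := by ring
    rw [h1, h2]
    exact Nat.mul_le_mul_left _ (by omega)
  obtain ⟨c, a, R, e1, e2, e3, e4, e5⟩ := numbers hm3 hH hC hη (i := 2 * i) (r := r) hΔ0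
    (by omega) hpow hT2
  have hR := hm₂ m R hm2 e3
  rw [← hM] at e4 e5 hR
  have e1' : (c : ℝ) + a ≤ addGates C := by exact_mod_cast e1
  have e2' : (R : ℝ) ≤ C.nonscalarCount := by exact_mod_cast e2
  have hD : 210 ≤ η * ((Δ : ℝ) + 1) := by
    rw [div_lt_iff₀ hη] at hΔ
    linarith
  have hr' : 6 ≤ η * 2 ^ r := by
    rw [div_lt_iff₀ hη] at hr
    linarith
  have h1 := final_num (M := M) (by linarith) hη (by positivity) (by positivity) hns0 had0 hT14
    e1' e2' (by positivity) hD (by positivity) hr' hR e4 e5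
  have k5 : 40 * (η * M) ≤ δ * M := by
    have := mul_le_mul_of_nonneg_right hη1 (show (0 : ℝ) ≤ M by linarith)
    linarith
  linarith

end Pool.Agent.Helper16K9.Hom
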