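import Pool.Agent.W946.SzFin

set_option autoImplicit false

/-!
# The number of leaders of a circuit for matrix multiplication
-/

namespace Pool.Agent.Helper16K9.Hom

open Finset Pool.Agent.H88R3.MM Pool.Agent.H522R2 Pool.Agent.H522R2.Circuit Pool.Agent.W946.Kos
open Pool.Agent.W946.Sz

theorem front {F : Type*} [Field F] {m : ℕ} {C : Circuit F (Vars m)} (hm : 2 ≤ m)
    (hC : ∀ i j, ∃ k : Fin C.nodes, C.poly k = entry F m i j) {η : ℝ} (hη : 0 < η) {i Δ r : ℕ}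
    (hΔ : 0 < Δ) (hi : 1 ≤ i) (hs : ((CC C).card : ℝ) ≤ (1 + η) ^ i)
    (hT : Δ * ((1 + Δ) ^ r * (4 * i + 3)) ≤ m) :
    (2 : ℝ) ^ r * (3 * (2 * (m : ℝ) ^ 2 - (3 * (CC C).card + 2 * C.nonscalarCount) / (Δ + 1)) -
      (1 + η) * (CC C).card) ≤ 3 * (2 * (m : ℝ) ^ 2) := by
  classical
  have : Nonempty (Vars m) := ⟨Sum.inl (⟨0, by omega⟩, ⟨0, by omega⟩)⟩
  obtain ⟨S⟩ := exists_sys C
  have h2 := S.heavy Δ
  have h3 := S.dist hC hΔ hT
  have hcard : (EE C).card = 2 * m ^ 2 + (CC C).card := by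
    rw [card_EE]
    congr 1
    rw [Fintype.card_sum, Fintype.card_prod, Fintype.card_fin]
    ring
  have h4 := rounds (H := S.H) (Δ := Δ) hη hi r (S.light Δ) (CC C) (fun c _ => S.row_card _ c)
    (fun e he => (mem_filter.1 he).2.1) hs h3
  set K' : ℝ := ((S.light Δ).card : ℝ) - (CC C).card with hK'
  have hΔr : (0 : ℝ) < (Δ : ℝ) + 1 := by positivity
  have h5 : 2 * (m : ℝ) ^ 2 - (3 * (CC C).card + 2 * C.nonscalarCount) / (Δ + 1) ≤ K' := by
    have h7 : ((Δ : ℝ) + 1) * (2 * (m : ℝ) ^ 2 + (CC C).card) ≤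
        ((Δ : ℝ) + 1) * (S.light Δ).card + 3 * (CC C).card + 2 * C.nonscalarCount := by
      rw [hcard] at h2
      exact_mod_cast h2
    have h8 : 2 * (m : ℝ) ^ 2 - K' ≤ (3 * (CC C).card + 2 * C.nonscalarCount) / (Δ + 1) := by
      rw [le_div_iff₀ hΔr, hK']
      nlinarith
    linarith
  have h6 : K' ≤ 2 * (m : ℝ) ^ 2 := by
    have h7 : (S.light Δ).card ≤ 2 * m ^ 2 + (CC C).card := by
      rw [← hcard]
      exact card_le_card (filter_subset _ _)
    have h8 : ((S.light Δ).card : ℝ) ≤ 2 * (m : ℝ) ^ 2 + (CC C).card := by exact_mod_cast h7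
    rw [hK']
    linarith
  have h7 : 3 * (2 * (m : ℝ) ^ 2 - (3 * (CC C).card + 2 * C.nonscalarCount) / (Δ + 1)) -
    (1 + η) * (CC C).card ≤ 3 * K' - (1 + η) * (CC C).card := by linarith
  have h8 := mul_le_mul_of_nonneg_left h7 (show (0 : ℝ) ≤ 2 ^ r by positivity)
  linarith

end Pool.Agent.Helper16K9.Hom
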