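import Pool.Agent.Helper16K9.Hom.Two
import Pool.Agent.Helper16K9.Hom.Front

set_option autoImplicit false

/-!
# Homogeneous circuits for matrix multiplication
-/

namespace Pool.Agent.Helper16K9.Hom

open Finset Pool.Agent.H88R3.MM Pool.Agent.H522R2 Pool.Agent.H522R2.Circuit Pool.Agent.W946.Kos
open Pool.Agent.W946.Sz
open Pool.Agent.W946.Lc (Net wt wt_eq)

variable {F : Type*} [Field F] {m : ℕ}

theorem qd_entry {C : Circuit F (Vars m)} {v : Fin C.nodes} {i j : Fin m}
    (h : C.poly v = entry F m i j) (x y : Vars m) :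
    qd C v x y = symM (Matrix.single i j (1 : F)) x y := by
  rw [← D2_entry, ← h]
  rfl

theorem two_out (hm : 2 ≤ m) {C : Circuit F (Vars m)} {v : Fin C.nodes} {i j : Fin m}
    (h : C.poly v = entry F m i j) : Two C v := by
  refine ⟨fun h0 => ?_, not_nonscalar hm h⟩
  have h1 := D2_entry_diag (F := F) i j i j ⟨0, by omega⟩
  rw [if_pos rfl, ← h] at h1
  have h2 := congrFun (congrFun h0 (Sum.inl (i, ⟨0, by omega⟩))) (Sum.inr (⟨0, by omega⟩, j))
  exact one_ne_zero (h1.symm.trans h2)

section system

/-- the products which are used -/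
def Used (C : Circuit F (Vars m)) (out : Fin m × Fin m → Fin C.nodes) (g : Fin C.nodes) : Prop :=
  ∃ y, Lf C (out y) g ≠ 0

variable {C : Circuit F (Vars m)} (hH : Homog C) (out : Fin m × Fin m → Fin C.nodes)
  (hout : ∀ y, C.poly (out y) = entry F m y.1 y.2)

include hH hout in
/-- the expansion of a combination of the entries -/
theorem expand (ψ : Fin m × Fin m → F) (x z : Vars m) :
    symM (Matrix.of fun i j => ψ (i, j)) x z =
      ∑ g, (∑ y, ψ y * Lf C (out y) g) * SP C g x z := by
  rw [symM_expand]
  have h1 : ∀ y : Fin m × Fin m, symM (Matrix.single y.1 y.2 (1 : F)) x z =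
      ∑ g, Lf C (out y) g * SP C g x z := by
    intro y
    rw [← qd_entry (hout y), qd_eq hH, Finset.sum_apply, Finset.sum_apply]
    rfl
  have h2 : ∑ i, ∑ j, (Matrix.of fun i j => ψ (i, j)) i j *
      symM (Matrix.single i j (1 : F)) x z =
      ∑ y : Fin m × Fin m, ψ y * symM (Matrix.single y.1 y.2 (1 : F)) x z := by
    rw [Fintype.sum_prod_type]
    rfl
  rw [h2]
  simp only [h1, mul_sum, sum_mul]
  rw [sum_comm]
  exact sum_congr rfl fun g _ => sum_congr rfl fun y _ => by ring

open Classical in
include hH hout in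
/-- every combination of the entries uses many products -/
theorem dist_out {ψ : Fin m × Fin m → F} (hψ : ψ ≠ 0) :
    m ≤ 2 * wt (∑ y, ψ y • (fun x : {g // Used C out g} => Lf C (out y) x.1)) := by
  obtain ⟨⟨i₀, j₀⟩, hz⟩ := Function.ne_iff.1 hψ
  rw [Pi.zero_apply] at hz
  set co : Fin C.nodes → F := fun g => ∑ y, ψ y * Lf C (out y) g with hco
  set S : Finset (Fin C.nodes) := univ.filter fun g => co g ≠ 0 with hS
  set G : Finset (Vars m → F) := S.image (fun g => lin C (inp C g).1) ∪
    S.image (fun g => lin C (inp C g).2) with hG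
  have hGc : G.card ≤ 2 * S.card := by
    refine (card_union_le _ _).trans ?_
    have h1 : (S.image (fun g => lin C (inp C g).1)).card ≤ S.card := card_image_le
    have h2 : (S.image (fun g => lin C (inp C g).2)).card ≤ S.card := card_image_le
    omega
  have h1 : Fintype.card (Fin m) ≤ G.card := by
    refine card_le_of_diag (F := F) (c := ψ (i₀, j₀))
      (fun k : Fin m => (fun z => ∑ g, co g * SP C g (Sum.inl (i₀, k)) z : Vars m → F))
      (fun l => LinearMap.proj (Sum.inr (l, j₀))) hz (fun k l => ?_) G fun k => ?_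
    · rw [LinearMap.proj_apply]
      have := expand hH out hout ψ (Sum.inl (i₀, k)) (Sum.inr (l, j₀))
      refine this.symm.trans ?_
      simp only [symM, Matrix.of_apply, eq_comm]
    · have h2 : (fun z => ∑ g, co g * SP C g (Sum.inl (i₀, k)) z : Vars m → F) =
          ∑ g ∈ S, ((co g * lin C (inp C g).1 (Sum.inl (i₀, k))) • lin C (inp C g).2 +
            (co g * lin C (inp C g).2 (Sum.inl (i₀, k))) • lin C (inp C g).1) := by
        funext z
        rw [Finset.sum_apply]
        rw [← sum_subset (subset_univ S)]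
        · refine sum_congr rfl fun g _ => ?_
          simp only [SP, Pi.add_apply, Pi.smul_apply, smul_eq_mul]
          ring
        · intro g _ hg
          have : co g = 0 := by
            by_contra h3
            exact hg (mem_filter.2 ⟨mem_univ _, h3⟩)
          rw [this, zero_mul]
      rw [h2]
      refine Submodule.sum_mem _ fun g hg => Submodule.add_mem _
        (Submodule.smul_mem _ _ (Submodule.subset_span ?_))
        (Submodule.smul_mem _ _ (Submodule.subset_span ?_))
      · rw [hG, coe_union]
        exact Or.inr (mem_coe.2 (mem_image_of_mem _ hg))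
      · rw [hG, coe_union]
        exact Or.inl (mem_coe.2 (mem_image_of_mem _ hg))
  rw [Fintype.card_fin] at h1
  have h3 : S.card ≤ wt (∑ y, ψ y • (fun x : {g // Used C out g} => Lf C (out y) x.1)) := by
    rw [wt_eq]
    refine (card_le_card (t := (univ.filter fun x : {g // Used C out g} =>
      (∑ y, ψ y • (fun x : {g // Used C out g} => Lf C (out y) x.1)) x ≠ 0).image
        Subtype.val) fun g hg => ?_).trans card_image_le
    have hg1 : co g ≠ 0 := (mem_filter.1 hg).2
    obtain ⟨y, _, hy⟩ := exists_ne_zero_of_sum_ne_zero hg1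
    rw [mem_image]
    refine ⟨⟨g, y, right_ne_zero_of_mul hy⟩, mem_filter.2 ⟨mem_univ _, ?_⟩, rfl⟩
    rw [Finset.sum_apply]
    exact hg1
  omega

open Classical in
include hH hout in
/-- the rank bound for the products which are used -/
theorem used_bound (q p : ℕ) (hqp : q * (p + 1) ≤ m) :
    m ^ 2 + (2 * p + 1) * m * q ≤
      Fintype.card {g // Used C out g} + q * (p + 1) * (2 * p + 1).choose p := by
  set f := algebraMap F (AlgebraicClosure F) with hf
  refine core (K := AlgebraicClosure F) (L := {g // Used C out g})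
    (u := fun g x => f (lin C (inp C g.1).1 x)) (v := fun g x => f (lin C (inp C g.1).2 x))
    (w := fun g => Matrix.of fun i j => f (Lf C (out (i, j)) g.1)) (fun G => ?_) q p hqp
  ext x z
  rw [symM_expand, Matrix.sum_apply]
  have h1 : ∀ i j, symM (Matrix.single i j (1 : AlgebraicClosure F)) x z =
      ∑ g : {g // Used C out g}, f (Lf C (out (i, j)) g.1) * f (SP C g.1 x z) := by
    intro i j
    rw [← symM_map f, ← qd_entry (hout (i, j)), qd_eq hH, Finset.sum_apply, Finset.sum_apply,
      map_sum]
    have h2 : ∑ g, f (Lf C (out (i, j)) g) * f (SP C g x z) =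
        ∑ g ∈ univ.filter (fun g => Used C out g), f (Lf C (out (i, j)) g) * f (SP C g x z) := by
      symm
      refine sum_subset (subset_univ _) fun g _ hg => ?_
      have : Lf C (out (i, j)) g = 0 := by
        by_contra h3
        exact hg (mem_filter.2 ⟨mem_univ _, ⟨(i, j), h3⟩⟩)
      rw [this, map_zero, zero_mul]
    have h3 : ∑ g ∈ univ.filter (fun g => Used C out g), f (Lf C (out (i, j)) g) * f (SP C g x z) =
        ∑ g : {g // Used C out g}, f (Lf C (out (i, j)) g.1) * f (SP C g.1 x z) :=
      (sum_subtype _ (fun g => by simp) _)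
    rw [← h3, ← h2]
    exact sum_congr rfl fun g _ => by
      simp only [Pi.smul_apply, smul_eq_mul, map_mul]
  simp only [h1, mul_sum]
  have h2 : ∀ g : {g // Used C out g},
      (pr G (Matrix.of fun i j => f (Lf C (out (i, j)) g.1)) •
        (Matrix.vecMulVec (fun x => f (lin C (inp C g.1).1 x))
            (fun x => f (lin C (inp C g.1).2 x)) +
          Matrix.vecMulVec (fun x => f (lin C (inp C g.1).2 x))
            (fun x => f (lin C (inp C g.1).1 x)))) x z =
      ∑ i, ∑ j, G i j * (f (Lf C (out (i, j)) g.1) * f (SP C g.1 x z)) := by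
    intro g
    rw [Matrix.smul_apply, Matrix.add_apply, Matrix.vecMulVec_apply, Matrix.vecMulVec_apply,
      smul_eq_mul]
    unfold pr
    rw [sum_mul]
    refine sum_congr rfl fun i _ => ?_
    rw [sum_mul]
    refine sum_congr rfl fun j _ => ?_
    simp only [Matrix.of_apply, SP, map_add, map_mul]
    ring
  simp only [h2]
  have h3 : ∀ i : Fin m, (∑ j, ∑ g : {g // Used C out g},
      G i j * (f (Lf C (out (i, j)) g.1) * f (SP C g.1 x z))) =
      ∑ g : {g // Used C out g}, ∑ j, G i j * (f (Lf C (out (i, j)) g.1) * f (SP C g.1 x z)) :=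
    fun i => sum_comm
  rw [sum_congr rfl fun i _ => h3 i, sum_comm]

end system

end Pool.Agent.Helper16K9.Hom
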