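import Pool.Agent.W946.SzFin
import Pool.Agent.W946.LcFwd
import Mathlib.RingTheory.MvPolynomial.EulerIdentity

set_option autoImplicit false

/-!
# Homogeneous circuits: the part of degree two is a linear circuit
-/

namespace Pool.Agent.Helper16K9.Hom

open Finset Pool.Agent.H88R3.MM Pool.Agent.H522R2 Pool.Agent.H522R2.Circuit Pool.Agent.W946.Kos
open Pool.Agent.W946.Sz

variable {F V : Type*} [Field F]

/-- Every node of the circuit computes a homogeneous polynomial. -/
def Homog (C : Circuit F V) : Prop := ∀ v, ∃ d, (C.poly v).IsHomogeneous d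

theorem const_of_hom {P : MvPolynomial V F} (h : P.IsHomogeneous 0) :
    P = MvPolynomial.C (MvPolynomial.constantCoeff P) := by
  have h1 := (MvPolynomial.totalDegree_zero_iff_isHomogeneous V).2 h
  exact MvPolynomial.totalDegree_eq_zero_iff_eq_C.1 h1

theorem cc_of_hom {P : MvPolynomial V F} {d : ℕ} (h : P.IsHomogeneous d) (hd : d ≠ 0) :
    MvPolynomial.constantCoeff P = 0 := by
  rw [MvPolynomial.constantCoeff_eq]
  exact h.coeff_eq_zero (by simpa using hd.symm)

theorem cc_nonconst {P : MvPolynomial V F} (h : ∃ d, P.IsHomogeneous d)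
    (hP : ∀ c : F, P ≠ MvPolynomial.C c) : MvPolynomial.constantCoeff P = 0 := by
  obtain ⟨d, hd⟩ := h
  by_cases h0 : d = 0
  · subst h0
    exact absurd (const_of_hom hd) (hP _)
  · exact cc_of_hom hd h0

theorem qd_zero_of_lin {C : Circuit F V} (hC : Homog C) {v : Fin C.nodes} (h : lin C v ≠ 0) :
    qd C v = 0 := by
  obtain ⟨d, hd⟩ := hC v
  obtain ⟨x, hx⟩ := Function.ne_iff.1 h
  rw [Pi.zero_apply] at hx
  have h1 : (MvPolynomial.pderiv x (C.poly v)).IsHomogeneous (d - 1) := hd.pderiv
  have h2 : d - 1 = 0 := by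
    by_contra h3
    exact hx (cc_of_hom h1 h3)
  funext y z
  change D2 y z (C.poly v) = 0
  have h3 : (MvPolynomial.pderiv z (C.poly v)).IsHomogeneous (d - 1) := hd.pderiv
  rw [h2] at h3
  unfold D2
  rw [const_of_hom h3, MvPolynomial.pderiv_C, map_zero]

/-- the symmetric product of the linear parts of the inputs -/
noncomputable def SP (C : Circuit F V) (g : Fin C.nodes) (x y : V) : F :=
  lin C (inp C g).1 x * lin C (inp C g).2 y + lin C (inp C g).1 y * lin C (inp C g).2 x

theorem qd_nonscalar {C : Circuit F V} (hC : Homog C) {v : Fin C.nodes} (h : C.IsNonscalar v) :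
    qd C v = SP C v := by
  obtain ⟨i, j, hg, h1, h2⟩ := h
  have hin : inp C v = (C.up v i, C.up v j) := by
    unfold inp
    rw [hg]
  funext x y
  change D2 x y (C.poly v) = _
  rw [poly_mul hg, D2_mul, cc_nonconst (hC _) h1, cc_nonconst (hC _) h2]
  simp only [SP, hin, lin]
  ring

theorem lin_nonscalar {C : Circuit F V} (hC : Homog C) {v : Fin C.nodes} (h : C.IsNonscalar v) :
    lin C v = 0 := by
  obtain ⟨i, j, hg, h1, h2⟩ := h
  funext x
  change D1 x (C.poly v) = 0
  rw [poly_mul hg, D1_mul, cc_nonconst (hC _) h1, cc_nonconst (hC _) h2]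
  ring

/-- a product which is not nonscalar has a constant factor -/
theorem const_factor {C : Circuit F V} {v : Fin C.nodes} {i j : Fin (v : ℕ)}
    (hg : C.gate v = Gate.mul i j) (h : ¬ C.IsNonscalar v) :
    (∃ c : F, C.poly (C.up v i) = MvPolynomial.C c) ∨
      ∃ c : F, C.poly (C.up v j) = MvPolynomial.C c := by
  by_contra hcon
  push Not at hcon
  exact h ⟨i, j, hg, hcon.1, hcon.2⟩

theorem qd_const {C : Circuit F V} {v : Fin C.nodes} {c : F} (h : C.poly v = MvPolynomial.C c) :
    qd C v = 0 := by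
  funext x y
  change D2 x y (C.poly v) = 0
  rw [h, D2_C]

theorem lin_const {C : Circuit F V} {v : Fin C.nodes} {c : F} (h : C.poly v = MvPolynomial.C c) :
    lin C v = 0 := by
  funext x
  change D1 x (C.poly v) = 0
  rw [h, D1_C]

theorem qd_mul_scalar {C : Circuit F V} {v : Fin C.nodes} {i j : Fin (v : ℕ)}
    (hg : C.gate v = Gate.mul i j) (h : ¬ C.IsNonscalar v) :
    qd C v = MvPolynomial.constantCoeff (C.poly (C.up v i)) • qd C (C.up v j) +
      MvPolynomial.constantCoeff (C.poly (C.up v j)) • qd C (C.up v i) := by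
  funext x y
  change D2 x y (C.poly v) = _
  rw [poly_mul hg, D2_mul]
  have hz : D1 x (C.poly (C.up v i)) * D1 y (C.poly (C.up v j)) +
      D1 y (C.poly (C.up v i)) * D1 x (C.poly (C.up v j)) = 0 := by
    rcases const_factor hg h with ⟨c, hc⟩ | ⟨c, hc⟩
    · rw [hc, D1_C, D1_C]
      ring
    · rw [hc, D1_C, D1_C]
      ring
  rw [hz, add_zero]
  rfl

theorem qd_add {C : Circuit F V} {v : Fin C.nodes} {i j : Fin (v : ℕ)}
    (hg : C.gate v = Gate.add i j) : qd C v = qd C (C.up v i) + qd C (C.up v j) := by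
  funext x y
  change D2 x y (C.poly v) = _
  rw [poly_add hg, D2_add]
  rfl

theorem qd_var {C : Circuit F V} {v : Fin C.nodes} {x : V} (hg : C.gate v = Gate.var x) :
    qd C v = 0 := by
  funext y z
  change D2 y z (C.poly v) = 0
  rw [poly_var hg, D2_X]

/-- leaders are additions without quadratic part -/
theorem leader_add [DecidableEq V] {C : Circuit F V} (hC : Homog C) {v : Fin C.nodes}
    (h : IsLeader C v) : (∃ i j, C.gate v = Gate.add i j) ∧ qd C v = 0 := by
  refine ⟨?_, qd_zero_of_lin hC h.1⟩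
  rcases h.isGate with h1 | ⟨i, j, hg⟩
  · exact h1
  exfalso
  by_cases hns : C.IsNonscalar v
  · exact h.1 (lin_nonscalar hC hns)
  · rcases const_factor hg hns with ⟨c, hc⟩ | ⟨c, hc⟩
    · refine h.2.2 (C.up v j) (up_lt v j) c ?_
      funext x
      change D1 x (C.poly v) = c * D1 x (C.poly (C.up v j))
      rw [poly_mul hg, hc, D1_mul, D1_C, MvPolynomial.constantCoeff_C]
      ring
    · refine h.2.2 (C.up v i) (up_lt v i) c ?_
      funext x
      change D1 x (C.poly v) = c * D1 x (C.poly (C.up v i))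
      rw [poly_mul hg, hc, D1_mul, D1_C, MvPolynomial.constantCoeff_C]
      ring

open Classical in
/-- the coefficients of the products in the quadratic part of a node -/
noncomputable def Lf (C : Circuit F V) (v : Fin C.nodes) : Fin C.nodes → F :=
  if qd C v = 0 then 0 else
    if C.IsNonscalar v then Pi.single v 1 else
      match C.gate v with
      | .var _ => 0
      | .const _ => 0
      | .add i j => Lf C (C.up v i) + Lf C (C.up v j)
      | .mul i j => MvPolynomial.constantCoeff (C.poly (C.up v i)) • Lf C (C.up v j) +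
          MvPolynomial.constantCoeff (C.poly (C.up v j)) • Lf C (C.up v i)
termination_by (v : ℕ)
decreasing_by all_goals simp [up]

theorem Lf_zero {C : Circuit F V} {v : Fin C.nodes} (h : qd C v = 0) : Lf C v = 0 := by
  rw [Lf, if_pos h]

theorem Lf_nonscalar {C : Circuit F V} {v : Fin C.nodes} (h : qd C v ≠ 0)
    (h1 : C.IsNonscalar v) : Lf C v = Pi.single v 1 := by
  classical
  rw [Lf, if_neg h, if_pos h1]

theorem Lf_add {C : Circuit F V} {v : Fin C.nodes} (h : qd C v ≠ 0) {i j : Fin (v : ℕ)}
    (hg : C.gate v = Gate.add i j) : Lf C v = Lf C (C.up v i) + Lf C (C.up v j) := by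
  classical
  have h1 : ¬ C.IsNonscalar v := by
    rintro ⟨i', j', hg', _⟩
    rw [hg] at hg'
    cases hg'
  rw [Lf, if_neg h, if_neg h1, hg]

theorem Lf_mul {C : Circuit F V} {v : Fin C.nodes} (h : qd C v ≠ 0)
    (h1 : ¬ C.IsNonscalar v) {i j : Fin (v : ℕ)} (hg : C.gate v = Gate.mul i j) :
    Lf C v = MvPolynomial.constantCoeff (C.poly (C.up v i)) • Lf C (C.up v j) +
          MvPolynomial.constantCoeff (C.poly (C.up v j)) • Lf C (C.up v i) := by
  classical
  rw [Lf, if_neg h, if_neg h1, hg]

theorem not_nonscalar_add {C : Circuit F V} {v : Fin C.nodes} {i j : Fin (v : ℕ)}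
    (hg : C.gate v = Gate.add i j) : ¬ C.IsNonscalar v := by
  rintro ⟨i', j', hg', _⟩
  rw [hg] at hg'
  cases hg'

/-- the quadratic part of a node -/
theorem qd_eq {C : Circuit F V} (hC : Homog C) (v : Fin C.nodes) :
    qd C v = ∑ g, Lf C v g • SP C g := by
  classical
  induction v using WellFoundedLT.induction with
  | _ v ih =>
  by_cases h0 : qd C v = 0
  · rw [h0, Lf_zero h0]
    simp
  by_cases h1 : C.IsNonscalar v
  · rw [Lf_nonscalar h0 h1, Finset.sum_eq_single v]
    · rw [Pi.single_eq_same, one_smul, qd_nonscalar hC h1]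
    · intro g _ hg
      rw [Pi.single_eq_of_ne hg, zero_smul]
    · intro h
      exact absurd (mem_univ _) h
  cases hg : C.gate v with
  | var x => exact absurd (qd_var hg) h0
  | const c => exact absurd (qd_const (poly_const hg)) h0
  | add i j =>
    rw [Lf_add h0 hg, qd_add hg, ih _ (up_lt v i), ih _ (up_lt v j), ← sum_add_distrib]
    refine sum_congr rfl fun g _ => ?_
    rw [Pi.add_apply, add_smul]
  | mul i j =>
    rw [Lf_mul h0 h1 hg, qd_mul_scalar hg h1, ih _ (up_lt v i), ih _ (up_lt v j), smul_sum,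
      smul_sum, ← sum_add_distrib]
    refine sum_congr rfl fun g _ => ?_
    rw [Pi.add_apply, add_smul, Pi.smul_apply, Pi.smul_apply, smul_eq_mul, smul_eq_mul,
      mul_smul, mul_smul]

/-- only nonscalar products have coefficients -/
theorem nonscalar_of_Lf {C : Circuit F V} (v g : Fin C.nodes) (h : Lf C v g ≠ 0) :
    C.IsNonscalar g := by
  classical
  induction v using WellFoundedLT.induction with
  | _ v ih =>
  by_cases h0 : qd C v = 0
  · rw [Lf_zero h0] at h
    exact absurd rfl h
  by_cases h1 : C.IsNonscalar v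
  · rw [Lf_nonscalar h0 h1] at h
    by_cases h2 : g = v
    · rwa [h2]
    · rw [Pi.single_eq_of_ne h2] at h
      exact absurd rfl h
  cases hg : C.gate v with
  | var x => exact absurd (qd_var hg) h0
  | const c => exact absurd (qd_const (poly_const hg)) h0
  | add i j =>
    rw [Lf_add h0 hg, Pi.add_apply] at h
    by_cases h2 : Lf C (C.up v i) g = 0
    · rw [h2, zero_add] at h
      exact ih _ (up_lt v j) h
    · exact ih _ (up_lt v i) h2
  | mul i j =>
    rw [Lf_mul h0 h1 hg, Pi.add_apply, Pi.smul_apply, Pi.smul_apply, smul_eq_mul,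
      smul_eq_mul] at h
    by_cases h2 : Lf C (C.up v i) g = 0
    · rw [h2, mul_zero, add_zero] at h
      exact ih _ (up_lt v j) (right_ne_zero_of_mul h)
    · exact ih _ (up_lt v i) h2

end Pool.Agent.Helper16K9.Hom
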