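import Pool.Agent.Helper16K9.Hom.Net
import Pool.Agent.Helper16K9.Hom.Back

set_option autoImplicit false

/-!
# The linear circuit of degree two
-/

namespace Pool.Agent.Helper16K9.Hom

open Finset Pool.Agent.H88R3.MM Pool.Agent.H522R2 Pool.Agent.H522R2.Circuit Pool.Agent.W946.Kos
open Pool.Agent.W946.Sz
open Pool.Agent.W946.Lc (Net wt)

variable {F V : Type*} [Field F]

section net

variable (C : Circuit F V) (P : Fin C.nodes → Prop)

/-- the forms of the nodes -/
noncomputable def Lx (v : ℕ) (x : {g // P g}) : F :=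
  if h : v < C.nodes then Lf C ⟨v, h⟩ x.1 else 0

theorem Lx_val (v : Fin C.nodes) : Lx C P v = fun x => Lf C v x.1 := by
  funext x
  rw [Lx, dif_pos v.2]

open Classical in
/-- the symbol of a node, with a scalar -/
noncomputable def ct (u : Fin C.nodes) (c : F) : {g // P g} ⊕ ℕ →₀ F :=
  if qd C u = 0 then 0 else
    if C.IsNonscalar u then (if h : P u then Finsupp.single (Sum.inl ⟨u, h⟩) c else 0)
    else Finsupp.single (Sum.inr (u : ℕ)) c

theorem lc_ct (u : Fin C.nodes) (c : F) :
    Finsupp.linearCombination F (Pool.Agent.W946.Lc.vec (Lx C P)) (ct C P u c) =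
      c • Lx C P u := by
  classical
  unfold ct
  by_cases h0 : qd C u = 0
  · rw [if_pos h0, map_zero, Lx_val, Lf_zero h0]
    funext x
    simp
  rw [if_neg h0]
  by_cases h1 : C.IsNonscalar u
  · rw [if_pos h1, Lx_val, Lf_nonscalar h0 h1]
    by_cases h2 : P u
    · rw [dif_pos h2, Finsupp.linearCombination_single]
      congr 1
      funext x
      simp only [Pool.Agent.W946.Lc.vec, Sum.elim_inl, Pi.single_apply]
      by_cases h3 : x = ⟨u, h2⟩
      · rw [if_pos h3, if_pos (by rw [h3])]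
      · rw [if_neg h3, if_neg (fun h => h3 (Subtype.ext h))]
    · rw [dif_neg h2, map_zero]
      funext x
      have h3 : x.1 ≠ u := fun h => h2 (h ▸ x.2)
      simp only [Pi.zero_apply, Pi.smul_apply, smul_eq_mul]
      rw [Pi.single_eq_of_ne h3, mul_zero]
  · rw [if_neg h1, Finsupp.linearCombination_single]
    rfl

theorem ct_card (u : Fin C.nodes) (c : F) : (ct C P u c).support.card ≤ 1 := by
  classical
  unfold ct
  split_ifs
  · simp
  · exact (card_le_card Finsupp.support_single_subset).trans (card_singleton _).le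
  · simp
  · exact (card_le_card Finsupp.support_single_subset).trans (card_singleton _).le

theorem ct_inr {u : Fin C.nodes} {c : F} {w : ℕ} (h : Sum.inr w ∈ (ct C P u c).support) :
    w = u ∧ qd C u ≠ 0 ∧ ¬ C.IsNonscalar u := by
  classical
  unfold ct at h
  split_ifs at h with h0 h1 h2
  · simp at h
  · have := Finsupp.support_single_subset h
    simp at this
  · simp at h
  · have h3 := Finsupp.support_single_subset h
    rw [mem_singleton] at h3
    exact ⟨Sum.inr_injective h3, h0, h1⟩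

theorem ct_zero {u : Fin C.nodes} {c : F} (h : qd C u = 0) : ct C P u c = 0 := by
  rw [ct, if_pos h]

/-- the rows -/
noncomputable def rowx (v : ℕ) : {g // P g} ⊕ ℕ →₀ F :=
  if h : v < C.nodes then
    match C.gate ⟨v, h⟩ with
    | .var _ => 0
    | .const _ => 0
    | .add i j => ct C P (C.up ⟨v, h⟩ i) 1 + ct C P (C.up ⟨v, h⟩ j) 1
    | .mul i j => ct C P (C.up ⟨v, h⟩ j) (MvPolynomial.constantCoeff (C.poly (C.up ⟨v, h⟩ i))) +
        ct C P (C.up ⟨v, h⟩ i) (MvPolynomial.constantCoeff (C.poly (C.up ⟨v, h⟩ j)))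
  else 0

theorem rowx_add {v : Fin C.nodes} {i j : Fin (v : ℕ)} (hg : C.gate v = Gate.add i j) :
    rowx C P v = ct C P (C.up v i) 1 + ct C P (C.up v j) 1 := by
  rw [rowx, dif_pos v.2, hg]

theorem rowx_mul {v : Fin C.nodes} {i j : Fin (v : ℕ)} (hg : C.gate v = Gate.mul i j) :
    rowx C P v = ct C P (C.up v j) (MvPolynomial.constantCoeff (C.poly (C.up v i))) +
        ct C P (C.up v i) (MvPolynomial.constantCoeff (C.poly (C.up v j))) := by
  rw [rowx, dif_pos v.2, hg]

/-- a node of degree two which is not a product -/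
def Two (v : Fin C.nodes) : Prop := qd C v ≠ 0 ∧ ¬ C.IsNonscalar v

variable {C} in
theorem two_gate {v : Fin C.nodes} (h : Two C v) :
    (∃ i j, C.gate v = Gate.add i j) ∨ ∃ i j, C.gate v = Gate.mul i j := by
  cases hg : C.gate v with
  | var x => exact absurd (qd_var hg) h.1
  | const c => exact absurd (qd_const (poly_const hg)) h.1
  | add i j => exact Or.inl ⟨i, j, rfl⟩
  | mul i j => exact Or.inr ⟨i, j, rfl⟩

open Classical in
/-- the gates of the linear circuit -/
noncomputable def UU : Finset ℕ :=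
  (univ.filter fun v => Two C v).map ⟨fun v : Fin C.nodes => (v : ℕ), Fin.val_injective⟩

theorem mem_UU {v : ℕ} : v ∈ UU C ↔ ∃ h : v < C.nodes, Two C ⟨v, h⟩ := by
  classical
  unfold UU
  rw [mem_map]
  constructor
  · rintro ⟨u, hu, rfl⟩
    exact ⟨u.2, (mem_filter.1 hu).2⟩
  · rintro ⟨h, h1⟩
    exact ⟨⟨v, h⟩, mem_filter.2 ⟨mem_univ _, h1⟩, rfl⟩

theorem rowx_early {v : Fin C.nodes} (hv : Two C v) {u : ℕ}
    (h : Sum.inr u ∈ (rowx C P v).support) : u ∈ UU C ∧ u < v := by
  classical
  have key : ∀ (w : Fin C.nodes) (c : F), w < v → Sum.inr u ∈ (ct C P w c).support →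
      u ∈ UU C ∧ u < v := by
    intro w c hw hu
    obtain ⟨h1, h2, h3⟩ := ct_inr C P hu
    subst h1
    exact ⟨(mem_UU C).2 ⟨w.2, h2, h3⟩, hw⟩
  rcases two_gate hv with ⟨i, j, hg⟩ | ⟨i, j, hg⟩
  · rw [rowx_add C P hg] at h
    rcases mem_union.1 (Finsupp.support_add h) with h1 | h1
    · exact key _ _ (up_lt v i) h1
    · exact key _ _ (up_lt v j) h1
  · rw [rowx_mul C P hg] at h
    rcases mem_union.1 (Finsupp.support_add h) with h1 | h1
    · exact key _ _ (up_lt v j) h1
    · exact key _ _ (up_lt v i) h1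

theorem rowx_form {v : Fin C.nodes} (hv : Two C v) :
    Finsupp.linearCombination F (Pool.Agent.W946.Lc.vec (Lx C P)) (rowx C P v) = Lx C P v := by
  rcases two_gate hv with ⟨i, j, hg⟩ | ⟨i, j, hg⟩
  · rw [rowx_add C P hg, map_add, lc_ct, lc_ct, one_smul, one_smul, Lx_val, Lx_val, Lx_val,
      Lf_add hv.1 hg]
    rfl
  · rw [rowx_mul C P hg, map_add, lc_ct, lc_ct, Lx_val, Lx_val, Lx_val, Lf_mul hv.1 hv.2 hg]
    rfl

theorem rowx_card_add {v : Fin C.nodes} {i j : Fin (v : ℕ)} (hg : C.gate v = Gate.add i j) :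
    (rowx C P v).support.card ≤ 2 := by
  classical
  rw [rowx_add C P hg]
  have h1 := card_le_card (Finsupp.support_add (g₁ := ct C P (C.up v i) (1 : F))
    (g₂ := ct C P (C.up v j) (1 : F)))
  have h2 := ct_card C P (C.up v i) 1
  have h3 := ct_card C P (C.up v j) 1
  exact h1.trans ((card_union_le _ _).trans (by omega))

theorem rowx_card_mul {v : Fin C.nodes} (hv : Two C v) {i j : Fin (v : ℕ)}
    (hg : C.gate v = Gate.mul i j) : (rowx C P v).support.card ≤ 1 := by
  classical
  rw [rowx_mul C P hg]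
  rcases const_factor hg hv.2 with ⟨c, hc⟩ | ⟨c, hc⟩
  · rw [ct_zero C P (qd_const hc), add_zero]
    exact ct_card _ _ _ _
  · rw [ct_zero C P (qd_const hc), zero_add]
    exact ct_card _ _ _ _

/-- the linear circuit of degree two -/
noncomputable def net {Y : Type*} (out : Y → Fin C.nodes) (ho : ∀ y, Two C (out y)) :
    Net F {g // P g} Y (fun y => Lx C P (out y)) where
  U := UU C
  row := rowx C P
  L := Lx C P
  out y := out y
  early := by
    intro v hv u hu
    obtain ⟨h, h1⟩ := (mem_UU C).1 hv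
    exact rowx_early C P (v := ⟨v, h⟩) h1 hu
  form := by
    intro v hv
    obtain ⟨h, h1⟩ := (mem_UU C).1 hv
    exact rowx_form C P (v := ⟨v, h⟩) h1
  hout y := ⟨(mem_UU C).2 ⟨(out y).2, ho y⟩, 1, one_ne_zero, (one_smul _ _).symm⟩

open Classical in
/-- the additions of degree two -/
noncomputable def AT : Finset (Fin C.nodes) :=
  univ.filter fun v => (∃ i j, C.gate v = Gate.add i j) ∧ qd C v ≠ 0

theorem mem_AT {v : Fin C.nodes} : v ∈ AT C ↔ (∃ i j, C.gate v = Gate.add i j) ∧ qd C v ≠ 0 := by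
  classical
  unfold AT
  rw [mem_filter]
  exact ⟨fun h => h.2, fun h => ⟨mem_univ _, h⟩⟩

open Classical in
theorem net_adds {Y : Type*} (out : Y → Fin C.nodes) (ho : ∀ y, Two C (out y)) :
    (net C P out ho).adds ≤ (AT C).card := by
  change ∑ v ∈ UU C, ((rowx C P v).support.card - 1) ≤ _
  unfold UU AT
  rw [sum_map, card_filter]
  change ∑ v ∈ univ.filter (fun v => Two C v), ((rowx C P v).support.card - 1) ≤ _
  rw [sum_filter]
  refine sum_le_sum fun v _ => ?_
  split_ifs with h1 h2 h2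
  · obtain ⟨⟨i, j, hg⟩, _⟩ := h2
    have := rowx_card_add C P hg
    omega
  · rcases two_gate h1 with ⟨i, j, hg⟩ | ⟨i, j, hg⟩
    · exact absurd ⟨⟨i, j, hg⟩, h1.1⟩ h2
    · have := rowx_card_mul C P h1 hg
      omega
  · exact Nat.zero_le _
  · exact le_rfl

end net

end Pool.Agent.Helper16K9.Hom
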